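import Pool.Agent.Helper45.PQ.StK

set_option autoImplicit false

open Module Classical
open scoped LinearAlgebra.Projectivization

namespace Pool.Agent.Helper95.PQ

open Pool.Agent.Helper45.PQ

universe u v

private lemma eta_eq {F : Type u} [Field F] [Fintype F] (a : F) : eta a = quadraticChar F a := by
  unfold eta
  rw [quadraticChar_apply]
  unfold quadraticCharFun
  by_cases h0 : a = 0
  · rw [if_pos h0, if_pos h0]
  · rw [if_neg h0, if_neg h0]
    by_cases h1 : IsSquare a
    · rw [if_pos h1, if_pos h1]
    · rw [if_neg h1, if_neg h1]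

private lemma eta_zero {F : Type u} [Field F] : eta (0 : F) = 0 := by
  unfold eta
  rw [if_pos rfl]

private lemma eta_val {F : Type u} [Field F] (a : F) (ha : a ≠ 0) : eta a = 1 ∨ eta a = -1 := by
  unfold eta
  rw [if_neg ha]
  by_cases h1 : IsSquare a
  · rw [if_pos h1]; exact Or.inl rfl
  · rw [if_neg h1]; exact Or.inr rfl

theorem hETA : StETA.{u} := by
  intro F _ _ h2
  have hchar : ringChar F ≠ 2 := by
    intro h
    apply h2
    have h3 : ((ringChar F : ℕ) : F) = 0 := ringChar.Nat.cast_ringChar
    rw [h] at h3
    exact_mod_cast h3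
  have hmul : ∀ a b : F, eta (a * b) = eta a * eta b := by
    intro a b
    rw [eta_eq, eta_eq, eta_eq, map_mul]
  have hsum : ∑ a : F, eta a = 0 := by
    rw [Finset.sum_congr rfl (fun a _ => eta_eq a)]
    exact quadraticChar_sum_zero hchar
  have e1 : ∀ a : F, eta a = (if eta a = 1 then (1 : ℤ) else 0) - (if eta a = -1 then 1 else 0) := by
    intro a
    by_cases h0 : a = 0
    · rw [h0, eta_zero]; norm_num
    · rcases eta_val a h0 with h | h <;> rw [h] <;> norm_num
  have e2 : ∀ a : F, (1 : ℤ) = (if a = 0 then 1 else 0) + ((if eta a = 1 then (1 : ℤ) else 0) +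
      (if eta a = -1 then 1 else 0)) := by
    intro a
    by_cases h0 : a = 0
    · rw [if_pos h0, h0, eta_zero]; norm_num
    · rw [if_neg h0]
      rcases eta_val a h0 with h | h <;> rw [h] <;> norm_num
  have c1 : ∑ a : F, (if eta a = 1 then (1 : ℤ) else 0) =
      ((Finset.univ.filter (fun a : F => eta a = 1)).card : ℤ) := by
    rw [Finset.card_filter]
    push_cast
    rfl
  have c2 : ∑ a : F, (if eta a = -1 then (1 : ℤ) else 0) =
      ((Finset.univ.filter (fun a : F => eta a = -1)).card : ℤ) := by
    rw [Finset.card_filter]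
    push_cast
    rfl
  have s1 : ((Finset.univ.filter (fun a : F => eta a = 1)).card : ℤ) =
      (Finset.univ.filter (fun a : F => eta a = -1)).card := by
    have h := hsum
    rw [Finset.sum_congr rfl (fun a _ => e1 a), Finset.sum_sub_distrib, c1, c2] at h
    linarith
  have s2 : (Nat.card F : ℤ) = 1 + ((Finset.univ.filter (fun a : F => eta a = 1)).card +
      (Finset.univ.filter (fun a : F => eta a = -1)).card) := by
    have h : ∑ _a : F, (1 : ℤ) = Nat.card F := by
      rw [Finset.sum_const, Finset.card_univ, Nat.card_eq_fintype_card]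
      simp
    rw [← h, Finset.sum_congr rfl (fun a _ => e2 a), Finset.sum_add_distrib,
      Finset.sum_add_distrib, c1, c2, Finset.sum_ite_eq']
    simp
  refine ⟨hmul, eta_val, hsum, ?_, ?_⟩
  · rintro s (rfl | rfl)
    · omega
    · omega
  · intro a b ha hb hab
    have h1 : eta (b * a) = 1 := by
      rw [hmul, ← hab]
      rcases eta_val a ha with h | h <;> rw [h] <;> norm_num
    have h3 : IsSquare (b * a) := by
      by_contra hn
      unfold eta at h1
      rw [if_neg (mul_ne_zero hb ha), if_neg hn] at h1
      norm_num at h1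
    obtain ⟨d, hd⟩ := h3
    refine ⟨d / a, ?_, ?_⟩
    · intro h
      rcases div_eq_zero_iff.1 h with h | h
      · rw [h, mul_zero] at hd
        exact mul_ne_zero hb ha hd
      · exact ha h
    · field_simp
      rw [hd]
      ring

end Pool.Agent.Helper95.PQ
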